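import Pool.Agent.H29.BH.Targets2

/-!
# The inequality of Hoelder, row N_HB
-/

set_option autoImplicit false

open NumberField NumberField.InfinitePlace NumberField.Units
  NumberField.Units.dirichletUnitTheorem MeasureTheory Set Filter Complex
open scoped nonZeroDivisors ENNReal

namespace Pool.Agent.H22.BH

open Pool.Agent.H29.BH
open Pool.Agent.H25.HK Pool.Agent.H23.LB Pool.Agent.H23.LC Pool.Agent.H29.DW
open Pool.Agent.H29.TC (dvs)

/-- Hoelder's inequality with the exponents `1/2`, `1/4`, `1/4` -/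
private theorem hoelder {α : Type*} [MeasurableSpace α] (m : Measure α) (u t : α → ℝ≥0∞)
    (hu : Measurable u) (ht : Measurable t) :
    ∫⁻ q, u q * t q ∂m ≤ (∫⁻ q, u q ∂m) ^ (1 / 2 : ℝ) * (∫⁻ q, u q ^ 2 ∂m) ^ (1 / 4 : ℝ) *
      (∫⁻ q, t q ^ 4 ∂m) ^ (1 / 4 : ℝ) := by
  have h := ENNReal.lintegral_prod_norm_pow_le (μ := m) (Finset.univ : Finset (Fin 3))
    (f := ![fun q => u q, fun q => u q ^ 2, fun q => t q ^ 4]) (p := ![1 / 2, 1 / 4, 1 / 4])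
    (by
      intro i _
      fin_cases i
      · exact hu.aemeasurable
      · exact (hu.pow_const 2).aemeasurable
      · exact (ht.pow_const 4).aemeasurable)
    (by
      rw [Fin.sum_univ_three]
      show (1 / 2 : ℝ) + 1 / 4 + 1 / 4 = 1
      norm_num)
    (by
      intro i _
      fin_cases i <;> norm_num)
  simp only [Fin.prod_univ_three] at h
  have e : ∀ q, u q * t q = u q ^ (1 / 2 : ℝ) * (u q ^ 2) ^ (1 / 4 : ℝ) *
      (t q ^ 4) ^ (1 / 4 : ℝ) := by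
    intro q
    have h1 : (u q ^ 2) ^ (1 / 4 : ℝ) = u q ^ (1 / 2 : ℝ) := by
      rw [← ENNReal.rpow_natCast, ← ENNReal.rpow_mul]
      norm_num
    have h2 : (t q ^ 4) ^ (1 / 4 : ℝ) = t q := by
      rw [← ENNReal.rpow_natCast, ← ENNReal.rpow_mul]
      norm_num
    rw [h1, h2, ← ENNReal.rpow_add_of_nonneg _ _ (by norm_num) (by norm_num)]
    norm_num
  calc ∫⁻ q, u q * t q ∂m
      = ∫⁻ q, u q ^ (1 / 2 : ℝ) * (u q ^ 2) ^ (1 / 4 : ℝ) * (t q ^ 4) ^ (1 / 4 : ℝ) ∂m :=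
        lintegral_congr e
    _ ≤ _ := h

private theorem swap_meas {α β γ : Type*} [MeasurableSpace α] [MeasurableSpace β]
    [MeasurableSpace γ] {g : α → β → γ} (h : Measurable (fun q : α × β => g q.1 q.2)) :
    Measurable (fun q : β × α => g q.2 q.1) := h.comp measurable_swap

private theorem r4 {x : ℝ} (hx : 0 ≤ x) : (x ^ 4) ^ (1 / 4 : ℝ) = x := by
  rw [← Real.rpow_natCast, ← Real.rpow_mul hx]
  norm_num

private theorem r2 {x : ℝ} (hx : 0 ≤ x) : (x ^ 2) ^ (1 / 4 : ℝ) = x ^ (1 / 2 : ℝ) := by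
  rw [← Real.rpow_natCast, ← Real.rpow_mul hx]
  norm_num

private theorem comb {x a b c : ℝ} (hx : 0 ≤ x) (ha : 0 ≤ a) (hb : 0 ≤ b) (hc : 0 ≤ c) :
    x * (a ^ (1 / 2 : ℝ) * b ^ (1 / 4 : ℝ) * c ^ (1 / 4 : ℝ)) =
      (x ^ 4 * (a ^ 2 * b * c)) ^ (1 / 4 : ℝ) := by
  rw [Real.mul_rpow (by positivity) (by positivity), r4 hx,
    Real.mul_rpow (by positivity) hc, Real.mul_rpow (by positivity) hb, r2 ha]

private theorem comb2 {c g W h Y : ℝ} (hc : 0 ≤ c) (hg : 0 ≤ g) (hW : 0 ≤ W) (hh : 0 ≤ h)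
    (hY : 0 ≤ Y) : (c ^ 4 * (g ^ 4 * (W ^ 3 * h * Y))) ^ (1 / 4 : ℝ) =
      c * (g * (W ^ (3 / 4 : ℝ) * h ^ (1 / 4 : ℝ) * Y ^ (1 / 4 : ℝ))) := by
  rw [Real.mul_rpow (by positivity) (by positivity), r4 hc,
    Real.mul_rpow (by positivity) (by positivity), r4 hg,
    Real.mul_rpow (by positivity) hY, Real.mul_rpow (by positivity) hh]
  have hw : (W ^ 3) ^ (1 / 4 : ℝ) = W ^ (3 / 4 : ℝ) := by
    rw [← Real.rpow_natCast, ← Real.rpow_mul hW]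
    norm_num
  rw [hw]

/-- the inequality without roots -/
private theorem key {C2 C3 E cK0 N P A W bt0 ε DD CV n4 : ℝ} (hE : 0 < E)
    (h16 : E * cK0 = n4⁻¹) (hn4 : 1 ≤ n4) (hcK : 1 ≤ cK0) (hN : 1 ≤ N) (hP : P = N * cK0)
    (hA : 1 ≤ A) (hW : 0 ≤ W) (hbt : 0 ≤ bt0) (hε : 0 < ε) (hC2 : 1 ≤ C2)
    (hC3 : 1 ≤ C3) (hDD : 0 ≤ DD) (hCV : 1 ≤ CV) (hDV : DD ≤ CV * N ^ (ε / 5)) :
    E⁻¹ ^ 4 * ((C2 * E * W) ^ 2 * (C2 * E * W * A ^ ε * (1 + E * bt0 * W / N)) *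
      (C3 * DD ^ 5 * (N * (1 + bt0) + (N / cK0) ^ (1 / 2 : ℝ) * cK0 ^ ε * bt0 ^ 3))) ≤
    (n4 * C2 * C3 * CV ^ 2) ^ 4 * (((A * P) ^ ε) ^ 4 * (W ^ 3 * (1 + W * bt0 / P) *
        (P * (1 + bt0) + P ^ (1 / 2 : ℝ) * bt0 ^ 3))) := by
  have hN0 : 0 < N := by linarith
  have hc0 : 0 < cK0 := by linarith
  have hA0 : 0 < A := by linarith
  have hP0 : 0 < P := by rw [hP]; positivity
  have hn0 : 0 < n4 := by linarith
  have hP1 : 1 ≤ P := by rw [hP]; nlinarith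
  have hNP : N ≤ P := by rw [hP]; nlinarith
  have hcP : cK0 ≤ P := by rw [hP]; nlinarith
  have hEi : E⁻¹ = n4 * cK0 := by
    have : E = (n4 * cK0)⁻¹ := by
      rw [mul_inv, ← h16]
      field_simp
    rw [this, inv_inv]
  have hPe1 : 1 ≤ P ^ ε := Real.one_le_rpow hP1 hε.le
  have hAe1 : 1 ≤ A ^ ε := Real.one_le_rpow hA hε.le
  -- the divisor function
  have hD5 : DD ^ 5 ≤ CV ^ 5 * P ^ ε := by
    calc DD ^ 5 ≤ (CV * N ^ (ε / 5)) ^ 5 := pow_le_pow_left₀ hDD hDV 5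
      _ = CV ^ 5 * (N ^ (ε / 5)) ^ 5 := by rw [mul_pow]
      _ = CV ^ 5 * N ^ ε := by
        rw [← Real.rpow_natCast (N ^ (ε / 5)) 5, ← Real.rpow_mul hN0.le]
        congr 2
        push_cast
        ring
      _ ≤ CV ^ 5 * P ^ ε := by
        gcongr
  -- the last factor
  have hX : cK0 * (N * (1 + bt0) + (N / cK0) ^ (1 / 2 : ℝ) * cK0 ^ ε * bt0 ^ 3) ≤
      P ^ ε * (P * (1 + bt0) + P ^ (1 / 2 : ℝ) * bt0 ^ 3) := by
    have e1 : cK0 * (N / cK0) ^ (1 / 2 : ℝ) = P ^ (1 / 2 : ℝ) := by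
      rw [Real.div_rpow hN0.le hc0.le, hP, Real.mul_rpow hN0.le hc0.le]
      have : cK0 = cK0 ^ (1 / 2 : ℝ) * cK0 ^ (1 / 2 : ℝ) := by
        rw [← Real.rpow_add hc0]; norm_num
      have h0 : cK0 ^ (1 / 2 : ℝ) ≠ 0 := by positivity
      field_simp
      nlinarith [this]
    have e2 : cK0 * (N * (1 + bt0) + (N / cK0) ^ (1 / 2 : ℝ) * cK0 ^ ε * bt0 ^ 3) =
        P * (1 + bt0) + P ^ (1 / 2 : ℝ) * cK0 ^ ε * bt0 ^ 3 := by
      rw [← e1, hP]; ring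
    rw [e2]
    have h1 : cK0 ^ ε ≤ P ^ ε := Real.rpow_le_rpow hc0.le hcP hε.le
    have h2 : P * (1 + bt0) ≤ P ^ ε * (P * (1 + bt0)) :=
      le_mul_of_one_le_left (by positivity) hPe1
    have h3 : P ^ (1 / 2 : ℝ) * cK0 ^ ε * bt0 ^ 3 ≤ P ^ ε * (P ^ (1 / 2 : ℝ) * bt0 ^ 3) := by
      calc P ^ (1 / 2 : ℝ) * cK0 ^ ε * bt0 ^ 3 ≤ P ^ (1 / 2 : ℝ) * P ^ ε * bt0 ^ 3 := by gcongr
        _ = _ := by ring
    linarith
  have h1E : 1 + E * bt0 * W / N ≤ 1 + W * bt0 / P := by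
    have hEc : E ≤ 1 / cK0 := by
      rw [le_div_iff₀ hc0, h16]
      exact inv_le_one_of_one_le₀ hn4
    have : E * bt0 * W / N ≤ 1 / cK0 * bt0 * W / N := by gcongr
    have e : 1 / cK0 * bt0 * W / N = W * bt0 / P := by
      rw [hP]; field_simp
    linarith [e ▸ this]
  set X := N * (1 + bt0) + (N / cK0) ^ (1 / 2 : ℝ) * cK0 ^ ε * bt0 ^ 3 with hXd
  set Y := P * (1 + bt0) + P ^ (1 / 2 : ℝ) * bt0 ^ 3 with hYd
  have hX0 : 0 ≤ X := by rw [hXd]; positivity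
  have hY0 : 0 ≤ Y := by rw [hYd]; positivity
  have hE0 : E ≠ 0 := hE.ne'
  have eL : E⁻¹ ^ 4 * ((C2 * E * W) ^ 2 * (C2 * E * W * A ^ ε * (1 + E * bt0 * W / N)) *
      (C3 * DD ^ 5 * X)) = C2 ^ 3 * C3 * n4 * W ^ 3 * A ^ ε * (1 + E * bt0 * W / N) * DD ^ 5 *
        (cK0 * X) := by
    have : E⁻¹ ^ 4 * ((C2 * E * W) ^ 2 * (C2 * E * W * A ^ ε * (1 + E * bt0 * W / N)) *
      (C3 * DD ^ 5 * X)) = (E⁻¹ * E) ^ 3 * (C2 ^ 3 * C3 * E⁻¹ * W ^ 3 * A ^ ε *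
        (1 + E * bt0 * W / N) * DD ^ 5 * X) := by ring
    rw [this, inv_mul_cancel₀ hE0, hEi]
    ring
  rw [eL]
  have hwb : 0 ≤ 1 + E * bt0 * W / N := by positivity
  have hwb' : 0 ≤ 1 + W * bt0 / P := by positivity
  have hAP : A ^ ε * (P ^ ε * P ^ ε) ≤ ((A * P) ^ ε) ^ 4 := by
    rw [Real.mul_rpow hA0.le hP0.le, mul_pow]
    have a1 : A ^ ε ≤ (A ^ ε) ^ 4 := by
      calc A ^ ε = (A ^ ε) ^ 1 := (pow_one _).symm
        _ ≤ (A ^ ε) ^ 4 := pow_le_pow_right₀ hAe1 (by norm_num)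
    have a2 : P ^ ε * P ^ ε ≤ (P ^ ε) ^ 4 := by
      calc P ^ ε * P ^ ε = (P ^ ε) ^ 2 := by ring
        _ ≤ (P ^ ε) ^ 4 := pow_le_pow_right₀ hPe1 (by norm_num)
    exact mul_le_mul a1 a2 (by positivity) (by positivity)
  have hcst : C2 ^ 3 * C3 * n4 * CV ^ 5 ≤ (n4 * C2 * C3 * CV ^ 2) ^ 4 := by
    have b1 : C2 ^ 3 ≤ C2 ^ 4 := pow_le_pow_right₀ hC2 (by norm_num)
    have b2 : C3 ≤ C3 ^ 4 := by
      calc C3 = C3 ^ 1 := (pow_one _).symm
        _ ≤ C3 ^ 4 := pow_le_pow_right₀ hC3 (by norm_num)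
    have b3 : n4 ≤ n4 ^ 4 := by
      calc n4 = n4 ^ 1 := (pow_one _).symm
        _ ≤ n4 ^ 4 := pow_le_pow_right₀ hn4 (by norm_num)
    have b4 : CV ^ 5 ≤ CV ^ 8 := pow_le_pow_right₀ hCV (by norm_num)
    calc C2 ^ 3 * C3 * n4 * CV ^ 5 ≤ C2 ^ 4 * C3 ^ 4 * n4 ^ 4 * CV ^ 8 := by gcongr
      _ = _ := by ring
  calc C2 ^ 3 * C3 * n4 * W ^ 3 * A ^ ε * (1 + E * bt0 * W / N) * DD ^ 5 * (cK0 * X)
      ≤ C2 ^ 3 * C3 * n4 * W ^ 3 * A ^ ε * (1 + W * bt0 / P) * (CV ^ 5 * P ^ ε) *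
        (P ^ ε * Y) := by
        gcongr
    _ = (C2 ^ 3 * C3 * n4 * CV ^ 5) * ((A ^ ε * (P ^ ε * P ^ ε)) *
        (W ^ 3 * (1 + W * bt0 / P) * Y)) := by ring
    _ ≤ (n4 * C2 * C3 * CV ^ 2) ^ 4 * (((A * P) ^ ε) ^ 4 *
        (W ^ 3 * (1 + W * bt0 / P) * Y)) := by
        gcongr

/-- the real inequality -/
private theorem real_part {C1 C2 C3 E cK0 N P A W bt0 ε DD CV n4 : ℝ} (hE : 0 < E)
    (h16 : E * cK0 = n4⁻¹) (hn4 : 1 ≤ n4) (hcK : 1 ≤ cK0) (hN : 1 ≤ N) (hP : P = N * cK0)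
    (hA : 1 ≤ A) (hW : 0 ≤ W) (hbt : 0 ≤ bt0) (hε : 0 < ε) (hC1 : 1 ≤ C1) (hC2 : 1 ≤ C2)
    (hC3 : 1 ≤ C3) (hDD : 0 ≤ DD) (hCV : 1 ≤ CV) (hDV : DD ≤ CV * N ^ (ε / 5)) :
    C1 * E⁻¹ * ((C2 * E * W) ^ (1 / 2 : ℝ) *
      (C2 * E * W * A ^ ε * (1 + E * bt0 * W / N)) ^ (1 / 4 : ℝ) *
      (C3 * DD ^ 5 * (N * (1 + bt0) + (N / cK0) ^ (1 / 2 : ℝ) * cK0 ^ ε * bt0 ^ 3)) ^
        (1 / 4 : ℝ)) ≤
    (C1 * (n4 * C2 * C3 * CV ^ 2)) * ((A * P) ^ ε * W ^ (3 / 4 : ℝ) *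
      (1 + W * bt0 / P) ^ (1 / 4 : ℝ) *
        (P * (1 + bt0) + P ^ (1 / 2 : ℝ) * bt0 ^ 3) ^ (1 / 4 : ℝ)) := by
  have hN0 : 0 < N := by linarith
  have hc0 : 0 < cK0 := by linarith
  have hA0 : 0 < A := by linarith
  have hP0 : 0 < P := by rw [hP]; positivity
  have hk := key hE h16 hn4 hcK hN hP hA hW hbt hε hC2 hC3 hDD hCV hDV
  have hl := Real.rpow_le_rpow (by positivity) hk (by norm_num : (0 : ℝ) ≤ 1 / 4)
  rw [← comb (by positivity) (by positivity) (by positivity) (by positivity),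
    comb2 (by positivity) (by positivity) hW (by positivity) (by positivity)] at hl
  calc _ = C1 * (E⁻¹ * ((C2 * E * W) ^ (1 / 2 : ℝ) *
      (C2 * E * W * A ^ ε * (1 + E * bt0 * W / N)) ^ (1 / 4 : ℝ) *
      (C3 * DD ^ 5 * (N * (1 + bt0) + (N / cK0) ^ (1 / 2 : ℝ) * cK0 ^ ε * bt0 ^ 3)) ^
        (1 / 4 : ℝ))) := by ring
    _ ≤ C1 * _ := mul_le_mul_of_nonneg_left hl (by positivity)
    _ = _ := by ring

open scoped Classical in
theorem pf_N_HB (hSD : N_SD) (hCB : N_CB) (hM4 : M_4) (hUF : K_UF) (hMT : N_MT)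
    (hDV : Pool.Agent.H29.TC.T_DV) : N_HB := by
  intro n hn ε hε hε8
  obtain ⟨C1, hC1, h1⟩ := hSD n hn
  obtain ⟨C2, hC2, h2⟩ := hCB n hn ε hε (by linarith)
  obtain ⟨C3, hC3, h3⟩ := hM4 n hn ε hε hε8
  obtain ⟨CV0, h4⟩ := hDV n (ε / 5) (by linarith)
  have hCV : 1 ≤ max CV0 1 := le_max_right _ _
  have hC3' : 1 ≤ C3 * C1 ^ (4 * n) := one_le_mul_of_one_le_of_one_le hC3 (one_le_pow₀ hC1)
  have h16n : (1 : ℝ) ≤ 16 ^ n := one_le_pow₀ (by norm_num)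
  refine ⟨4 ^ n * (C1 * (16 ^ n * C2 * (C3 * C1 ^ (4 * n)) * (max CV0 1) ^ 2)), ?_, ?_⟩
  · refine one_le_mul_of_one_le_of_one_le (one_le_pow₀ (by norm_num))
      (one_le_mul_of_one_le_of_one_le hC1 (one_le_mul_of_one_le_of_one_le
        (one_le_mul_of_one_le_of_one_le (one_le_mul_of_one_le_of_one_le h16n hC2) hC3')
        (one_le_pow₀ hCV)))
  intro K _ _ hK f hf χ hχ L y μ A P S hL hQ hS hP
  have hf' : ((f : Ideal (𝓞 K)) : FI K) ≠ 0 := by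
    rwa [Ne, FractionalIdeal.coeIdeal_eq_zero]
  obtain ⟨F, hF⟩ := hUF K ((f : FI K) * L) y (mul_ne_zero hf' hL)
  have hcc : ∀ v, 1 ≤ cc (χ.k v) (μ v) := by
    intro v
    unfold cc
    have := abs_nonneg (μ v).im
    have := abs_nonneg ((χ.k v : ℤ) : ℝ)
    linarith
  have hη : ∀ v, 0 < (1 / 16 : ℝ) * (cc (χ.k v) (μ v))⁻¹ := fun v => by
    have := hcc v
    positivity
  have hη2 : ∀ v, (1 / 16 : ℝ) * (cc (χ.k v) (μ v))⁻¹ * cc (χ.k v) (μ v) = 1 / 16 := fun v => by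
    have := hcc v
    rw [mul_assoc, inv_mul_cancel₀ (by linarith), mul_one]
  generalize hηd : (fun v => (1 / 16 : ℝ) * (cc (χ.k v) (μ v))⁻¹) = η at *
  have hηv : ∀ v, η v = (1 / 16 : ℝ) * (cc (χ.k v) (μ v))⁻¹ := fun v => by rw [← hηd]
  have hη' : ∀ v, 0 < η v := fun v => by rw [hηv]; exact hη v
  have hη2' : ∀ v, η v * cc (χ.k v) (μ v) = 1 / 16 := fun v => by rw [hηv]; exact hη2 v
  obtain ⟨Am, hAm, hSDa⟩ := h1 K hK f hf χ L y η F μ hL hF hQ hη' (fun v => (hη2' v).le)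
  have hsum : ∑ v : InfinitePlace K, v.mult = n := by
    rw [← hK]; exact InfinitePlace.sum_mult_eq
  -- the product of the eta
  have hE0 : 0 < ∏ v, η v ^ v.mult := Finset.prod_pos fun v _ => pow_pos (hη' v) _
  have hEc : (∏ v, η v ^ v.mult) * cK χ.k μ = (16 ^ n : ℝ)⁻¹ := by
    unfold cK
    rw [← Finset.prod_mul_distrib]
    simp_rw [← mul_pow, hη2']
    rw [Finset.prod_pow_eq_pow_sum, hsum]
    rw [one_div, inv_pow]
  have hcK : 1 ≤ cK χ.k μ := by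
    unfold cK
    exact Finset.prod_induction _ (fun x => (1 : ℝ) ≤ x)
      (fun a b ha hb => one_le_mul_of_one_le_of_one_le ha hb) le_rfl
      (fun v _ => one_le_pow₀ (hcc v))
  have hN : 1 ≤ Nf K f := by
    unfold Nf
    have : Ideal.absNorm f ≠ 0 := by
      rwa [Ne, Ideal.absNorm_eq_zero_iff]
    exact_mod_cast Nat.one_le_iff_ne_zero.mpr this
  have hbt : 0 ≤ bt L y := by
    unfold bt
    have : (0 : ℝ) ≤ (FractionalIdeal.absNorm L : ℝ) := by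
      exact_mod_cast FractionalIdeal.absNorm_nonneg L
    positivity
  have hcard : Fintype.card (InfinitePlace K → Fin 4) ≤ 4 ^ n := by
    rw [Fintype.card_fun, Fintype.card_fin]
    refine Nat.pow_le_pow_right (by norm_num) ?_
    calc Fintype.card (InfinitePlace K) = ∑ v : InfinitePlace K, 1 := by simp
      _ ≤ ∑ v : InfinitePlace K, v.mult := Finset.sum_le_sum fun v _ => InfinitePlace.mult_pos
      _ = n := hsum
  -- the measures
  have : SigmaFinite (mK K) := by unfold mK; infer_instance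
  have hmt := hMT K f L y hL
  -- the functions
  have hna : ∀ a, Measurable (fun q : (InfinitePlace K → ℂ) × (InfinitePlace K → ℂ) =>
      nA f L y η a q.2 q.1) := fun a =>
    swap_meas (g := fun ζ z => nA f L y η a ζ z) (hmt.2 η a)
  have hu : Measurable (fun q : (InfinitePlace K → ℂ) × (InfinitePlace K → ℂ) =>
      ∑ a ∈ S, nA f L y η a q.2 q.1) := Finset.measurable_sum _ fun a _ => hna a
  have ht : ∀ j, Measurable (fun q : (InfinitePlace K → ℂ) × (InfinitePlace K → ℂ) =>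
      ENNReal.ofReal ‖TT (cg χ L) L y (PhA χ.k μ (Am j)) q.2 q.1‖) := by
    intro j
    have := swap_meas (g := fun ζ z => TT (cg χ L) L y (PhA χ.k μ (Am j)) ζ z)
      (hmt.1 (cg χ L) χ.k μ C1 (Am j) (hAm j))
    exact this.norm.ennreal_ofReal
  have hnt : ∀ a j, Measurable (fun q : (InfinitePlace K → ℂ) × (InfinitePlace K → ℂ) =>
      nA f L y η a q.2 q.1 *
        ENNReal.ofReal ‖TT (cg χ L) L y (PhA χ.k μ (Am j)) q.2 q.1‖) :=
    fun a j => (hna a).mul (ht j)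
  have hCBa := h2 K hK f L y η F A S hf hL hF hη' hS
  -- the three integrals
  have I1 : ∫⁻ q, ∑ a ∈ S, nA f L y η a q.2 q.1
      ∂(((mK K).restrict (ZB K)).prod ((mK K).restrict F)) ≤
      ENNReal.ofReal (C2 * (∏ v, η v ^ v.mult) * (S.card * A)) := by
    rw [lintegral_prod _ hu.aemeasurable]
    exact hCBa.1
  have I2 : ∫⁻ q, (∑ a ∈ S, nA f L y η a q.2 q.1) ^ 2
      ∂(((mK K).restrict (ZB K)).prod ((mK K).restrict F)) ≤
      ENNReal.ofReal (C2 * (∏ v, η v ^ v.mult) * (S.card * A) * A ^ ε *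
        (1 + (∏ v, η v ^ v.mult) * bt L y * (S.card * A) / Nf K f)) := by
    rw [lintegral_prod _ (hu.pow_const 2).aemeasurable]
    exact hCBa.2
  have I3 : ∀ j, ∫⁻ q, (ENNReal.ofReal ‖TT (cg χ L) L y (PhA χ.k μ (Am j)) q.2 q.1‖) ^ 4
      ∂(((mK K).restrict (ZB K)).prod ((mK K).restrict F)) ≤
      ENNReal.ofReal (C3 * C1 ^ (4 * n) * (dvs K f).card ^ 5 * (Nf K f * (1 + bt L y) +
        (Nf K f / cK χ.k μ) ^ (1 / 2 : ℝ) * cK χ.k μ ^ ε * bt L y ^ 3)) := by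
    intro j
    rw [lintegral_prod _ ((ht j).pow_const 4).aemeasurable]
    have := h3 K hK f hf χ hχ L y F μ C1 (Am j) hL hF hQ hC1 (hAm j)
    refine le_trans ?_ this
    refine le_trans (lintegral_mono' Measure.restrict_le_self le_rfl) ?_
    refine lintegral_mono fun z => lintegral_mono fun ζ => ?_
    rw [ENNReal.ofReal_pow (norm_nonneg _)]
  -- the bound for every `j`
  have hW0 : (0 : ℝ) ≤ S.card * A := by
    have := hS.one
    positivity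
  have hJ : ∀ j, ENNReal.ofReal (C1 * (∏ v, η v ^ v.mult)⁻¹) *
      ∫⁻ q, (∑ a ∈ S, nA f L y η a q.2 q.1) *
        ENNReal.ofReal ‖TT (cg χ L) L y (PhA χ.k μ (Am j)) q.2 q.1‖
      ∂(((mK K).restrict (ZB K)).prod ((mK K).restrict F)) ≤
      ENNReal.ofReal ((C1 * (16 ^ n * C2 * (C3 * C1 ^ (4 * n)) * (max CV0 1) ^ 2)) *
        ((A * P) ^ ε * (S.card * A) ^ (3 / 4 : ℝ) *
        (1 + S.card * A * bt L y / P) ^ (1 / 4 : ℝ) *
          (P * (1 + bt L y) + P ^ (1 / 2 : ℝ) * bt L y ^ 3) ^ (1 / 4 : ℝ))) := by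
    intro j
    have hh := hoelder (((mK K).restrict (ZB K)).prod ((mK K).restrict F)) _ _ hu (ht j)
    have hr := real_part (C1 := C1) (C2 := C2) (C3 := C3 * C1 ^ (4 * n)) (n4 := 16 ^ n)
      (E := ∏ v, η v ^ v.mult) (cK0 := cK χ.k μ) (N := Nf K f) (P := P) (A := A)
      (W := S.card * A) (bt0 := bt L y) (ε := ε) (DD := (dvs K f).card) (CV := max CV0 1)
      hE0 hEc h16n hcK hN hP hS.one hW0 hbt hε hC1 hC2 hC3' (Nat.cast_nonneg _) hCV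
      ((h4 K hK f hf).trans (mul_le_mul_of_nonneg_right (le_max_left _ _) (by positivity)))
    have hA0 : 0 < A := lt_of_lt_of_le one_pos hS.one
    have hN0 : 0 < Nf K f := lt_of_lt_of_le one_pos hN
    have hc0 : 0 < cK χ.k μ := lt_of_lt_of_le one_pos hcK
    refine le_trans ?_ (ENNReal.ofReal_le_ofReal hr)
    rw [ENNReal.ofReal_mul (p := C1 * (∏ v, η v ^ v.mult)⁻¹) (by positivity)]
    refine mul_le_mul_right (hh.trans ?_) _
    rw [ENNReal.ofReal_mul (by positivity), ENNReal.ofReal_mul (by positivity),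
      ← ENNReal.ofReal_rpow_of_nonneg (by positivity) (by norm_num),
      ← ENNReal.ofReal_rpow_of_nonneg (by positivity) (by norm_num),
      ← ENNReal.ofReal_rpow_of_nonneg (by positivity) (by norm_num)]
    exact mul_le_mul' (mul_le_mul' (ENNReal.rpow_le_rpow I1 (by norm_num))
      (ENNReal.rpow_le_rpow I2 (by norm_num))) (ENNReal.rpow_le_rpow (I3 j) (by norm_num))
  -- the sum over the multipliers
  have hP0 : 0 < P := by
    rw [hP]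
    have hN0 : 0 < Nf K f := lt_of_lt_of_le one_pos hN
    have hc0 : 0 < cK χ.k μ := lt_of_lt_of_le one_pos hcK
    positivity
  have hA0 : 0 < A := lt_of_lt_of_le one_pos hS.one
  have hfin : ENNReal.ofReal (∑ a ∈ S, ‖SS χ ((a : FI K)⁻¹ * L) y μ‖) ≤
      ENNReal.ofReal (4 ^ n * (C1 * (16 ^ n * C2 * (C3 * C1 ^ (4 * n)) * (max CV0 1) ^ 2)) *
        ((A * P) ^ ε * (S.card * A) ^ (3 / 4 : ℝ) *
        (1 + S.card * A * bt L y / P) ^ (1 / 4 : ℝ) *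
          (P * (1 + bt L y) + P ^ (1 / 2 : ℝ) * bt L y ^ 3) ^ (1 / 4 : ℝ))) := by
    rw [ENNReal.ofReal_sum_of_nonneg fun _ _ => norm_nonneg _]
    calc ∑ a ∈ S, ENNReal.ofReal ‖SS χ ((a : FI K)⁻¹ * L) y μ‖
        ≤ ∑ a ∈ S, ENNReal.ofReal (C1 * (∏ v, η v ^ v.mult)⁻¹) *
          ∑ j : InfinitePlace K → Fin 4, ∫⁻ q, nA f L y η a q.2 q.1 *
            ENNReal.ofReal ‖TT (cg χ L) L y (PhA χ.k μ (Am j)) q.2 q.1‖
          ∂(((mK K).restrict (ZB K)).prod ((mK K).restrict F)) := by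
          refine Finset.sum_le_sum fun a ha => ?_
          refine (hSDa a (hS.ne a ha) (hS.cop a ha)).trans (le_of_eq ?_)
          congr 1
          refine Finset.sum_congr rfl fun j _ => ?_
          rw [lintegral_prod _ (hnt a j).aemeasurable]
      _ = ∑ j : InfinitePlace K → Fin 4, ENNReal.ofReal (C1 * (∏ v, η v ^ v.mult)⁻¹) *
          ∫⁻ q, (∑ a ∈ S, nA f L y η a q.2 q.1) *
            ENNReal.ofReal ‖TT (cg χ L) L y (PhA χ.k μ (Am j)) q.2 q.1‖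
          ∂(((mK K).restrict (ZB K)).prod ((mK K).restrict F)) := by
          rw [← Finset.mul_sum, Finset.sum_comm, Finset.mul_sum]
          refine Finset.sum_congr rfl fun j _ => ?_
          congr 1
          simp_rw [Finset.sum_mul]
          rw [lintegral_finsetSum _ fun a _ => hnt a j]
      _ ≤ ∑ j : InfinitePlace K → Fin 4, ENNReal.ofReal
          ((C1 * (16 ^ n * C2 * (C3 * C1 ^ (4 * n)) * (max CV0 1) ^ 2)) *
          ((A * P) ^ ε * (S.card * A) ^ (3 / 4 : ℝ) *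
          (1 + S.card * A * bt L y / P) ^ (1 / 4 : ℝ) *
          (P * (1 + bt L y) + P ^ (1 / 2 : ℝ) * bt L y ^ 3) ^ (1 / 4 : ℝ))) :=
          Finset.sum_le_sum fun j _ => hJ j
      _ = (Fintype.card (InfinitePlace K → Fin 4) : ℝ≥0∞) * ENNReal.ofReal
          ((C1 * (16 ^ n * C2 * (C3 * C1 ^ (4 * n)) * (max CV0 1) ^ 2)) *
          ((A * P) ^ ε * (S.card * A) ^ (3 / 4 : ℝ) *
          (1 + S.card * A * bt L y / P) ^ (1 / 4 : ℝ) *
          (P * (1 + bt L y) + P ^ (1 / 2 : ℝ) * bt L y ^ 3) ^ (1 / 4 : ℝ))) := by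
          rw [Finset.sum_const, nsmul_eq_mul, Finset.card_univ]
      _ ≤ ENNReal.ofReal (4 ^ n) * ENNReal.ofReal
          ((C1 * (16 ^ n * C2 * (C3 * C1 ^ (4 * n)) * (max CV0 1) ^ 2)) *
          ((A * P) ^ ε * (S.card * A) ^ (3 / 4 : ℝ) *
          (1 + S.card * A * bt L y / P) ^ (1 / 4 : ℝ) *
          (P * (1 + bt L y) + P ^ (1 / 2 : ℝ) * bt L y ^ 3) ^ (1 / 4 : ℝ))) := by
          refine mul_le_mul_left ?_ _
          rw [← ENNReal.ofReal_natCast]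
          refine ENNReal.ofReal_le_ofReal ?_
          exact_mod_cast hcard
      _ = _ := by
          rw [← ENNReal.ofReal_mul (by positivity)]
          congr 1
          ring
  have hge : (0 : ℝ) ≤ 4 ^ n * (C1 * (16 ^ n * C2 * (C3 * C1 ^ (4 * n)) * (max CV0 1) ^ 2)) *
        ((A * P) ^ ε * (S.card * A) ^ (3 / 4 : ℝ) *
        (1 + S.card * A * bt L y / P) ^ (1 / 4 : ℝ) *
          (P * (1 + bt L y) + P ^ (1 / 2 : ℝ) * bt L y ^ 3) ^ (1 / 4 : ℝ)) := by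
    positivity
  rw [ENNReal.ofReal_le_ofReal_iff hge] at hfin
  refine hfin.trans (le_of_eq ?_)
  ring

end Pool.Agent.H22.BH
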