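import Pool.Agent.H29.BH.Targets3

/-!
# The inequality of Hoelder, for one position, row R_HP
-/

set_option autoImplicit false

open NumberField NumberField.InfinitePlace NumberField.Units
  NumberField.Units.dirichletUnitTheorem MeasureTheory Set Filter Complex
open scoped nonZeroDivisors ENNReal

namespace Pool.Agent.H22.BH

open Pool.Agent.H29.BH
open Pool.Agent.H25.HK Pool.Agent.H23.LB Pool.Agent.H23.LC Pool.Agent.H29.DW
open Pool.Agent.H29.TC (dvs)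

/-- Hoelder's inequality with the exponents `1/2`, `1/4`, `1/4` -/
private theorem hoelder {α : Type*} [MeasurableSpace α] (m : Measure α) (u t : α → ℝ≥0∞)
    (hu : Measurable u) (ht : Measurable t) :
    ∫⁻ q, u q * t q ∂m ≤ (∫⁻ q, u q ∂m) ^ (1 / 2 : ℝ) * (∫⁻ q, u q ^ 2 ∂m) ^ (1 / 4 : ℝ) *
      (∫⁻ q, t q ^ 4 ∂m) ^ (1 / 4 : ℝ) := by
  have h := ENNReal.lintegral_prod_norm_pow_le (μ := m) (Finset.univ : Finset (Fin 3))
    (f := ![fun q => u q, fun q => u q ^ 2, fun q => t q ^ 4]) (p := ![1 / 2, 1 / 4, 1 / 4])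
    (by
      intro i _
      fin_cases i
      · exact hu.aemeasurable
      · exact (hu.pow_const 2).aemeasurable
      · exact (ht.pow_const 4).aemeasurable)
    (by
      rw [Fin.sum_univ_three]
      show (1 / 2 : ℝ) + 1 / 4 + 1 / 4 = 1
      norm_num)
    (by
      intro i _
      fin_cases i <;> norm_num)
  simp only [Fin.prod_univ_three] at h
  have e : ∀ q, u q * t q = u q ^ (1 / 2 : ℝ) * (u q ^ 2) ^ (1 / 4 : ℝ) *
      (t q ^ 4) ^ (1 / 4 : ℝ) := by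
    intro q
    have h1 : (u q ^ 2) ^ (1 / 4 : ℝ) = u q ^ (1 / 2 : ℝ) := by
      rw [← ENNReal.rpow_natCast, ← ENNReal.rpow_mul]
      norm_num
    have h2 : (t q ^ 4) ^ (1 / 4 : ℝ) = t q := by
      rw [← ENNReal.rpow_natCast, ← ENNReal.rpow_mul]
      norm_num
    rw [h1, h2, ← ENNReal.rpow_add_of_nonneg _ _ (by norm_num) (by norm_num)]
    norm_num
  calc ∫⁻ q, u q * t q ∂m
      = ∫⁻ q, u q ^ (1 / 2 : ℝ) * (u q ^ 2) ^ (1 / 4 : ℝ) * (t q ^ 4) ^ (1 / 4 : ℝ) ∂m :=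
        lintegral_congr e
    _ ≤ _ := h

private theorem swap_meas {α β γ : Type*} [MeasurableSpace α] [MeasurableSpace β]
    [MeasurableSpace γ] {g : α → β → γ} (h : Measurable (fun q : α × β => g q.1 q.2)) :
    Measurable (fun q : β × α => g q.2 q.1) := h.comp measurable_swap

private theorem fst_meas {α β γ : Type*} [MeasurableSpace α] [MeasurableSpace β]
    [MeasurableSpace γ] {g : α → β → γ} (h : Measurable (fun q : β × α => g q.2 q.1)) (z : β) :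
    Measurable (fun ζ => g ζ z) := h.comp (measurable_const.prodMk measurable_id)

private theorem r4 {x : ℝ} (hx : 0 ≤ x) : (x ^ 4) ^ (1 / 4 : ℝ) = x := by
  rw [← Real.rpow_natCast, ← Real.rpow_mul hx]
  norm_num

private theorem r2 {x : ℝ} (hx : 0 ≤ x) : (x ^ 2) ^ (1 / 4 : ℝ) = x ^ (1 / 2 : ℝ) := by
  rw [← Real.rpow_natCast, ← Real.rpow_mul hx]
  norm_num

/-- the measure of the ball of radius `3` at one place -/
private theorem mz_ball (r : Bool) : mz r (Metric.closedBall (0 : ℂ) 3) ≤ ENNReal.ofReal 29 := by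
  cases r
  · have h1 : mz false = volume := by simp [mz]
    rw [h1, Complex.volume_closedBall]
    have h2 : Real.pi < 3.15 := Real.pi_lt_d2
    have h3 : (NNReal.pi : ℝ≥0∞) = ENNReal.ofReal Real.pi := by
      rw [ENNReal.ofReal, ← NNReal.coe_real_pi, Real.toNNReal_coe]
    rw [h3, ← ENNReal.ofReal_pow (by norm_num), ← ENNReal.ofReal_mul (by positivity)]
    apply ENNReal.ofReal_le_ofReal
    nlinarith
  · have h1 : mz true = Measure.map (fun x : ℝ => (x : ℂ)) volume := by simp [mz]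
    have hemb : MeasurableEmbedding (fun x : ℝ => (x : ℂ)) :=
      Complex.isometry_ofReal.isClosedEmbedding.measurableEmbedding
    rw [h1, hemb.map_apply]
    have h2 : (fun x : ℝ => (x : ℂ)) ⁻¹' Metric.closedBall (0 : ℂ) 3 = Icc (-3) 3 := by
      ext x
      simp only [mem_preimage, Metric.mem_closedBall, dist_zero_right, Complex.norm_real,
        Real.norm_eq_abs, abs_le, mem_Icc]
    rw [h2, Real.volume_Icc]
    apply ENNReal.ofReal_le_ofReal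
    norm_num

/-- the measure of the ball of radius `3` -/
private theorem mK_ball (K : Type) [Field K] [NumberField K] :
    mK K (ZB K) ≤ ENNReal.ofReal (29 ^ Module.finrank ℚ K) := by
  have h1 : ZB K = Set.pi univ (fun _ : InfinitePlace K => Metric.closedBall (0 : ℂ) 3) := by
    ext z
    simp [ZB]
  rw [h1, mK, Measure.pi_pi]
  calc ∏ v : InfinitePlace K, mz (rv v) (Metric.closedBall (0 : ℂ) 3)
      ≤ ∏ v : InfinitePlace K, ENNReal.ofReal 29 :=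
        Finset.prod_le_prod' fun v _ => mz_ball (rv v)
    _ = ENNReal.ofReal (29 ^ Fintype.card (InfinitePlace K)) := by
        rw [Finset.prod_const, Finset.card_univ, ENNReal.ofReal_pow (by norm_num)]
    _ ≤ ENNReal.ofReal (29 ^ Module.finrank ℚ K) := by
        apply ENNReal.ofReal_le_ofReal
        apply pow_le_pow_right₀ (by norm_num)
        have h2 := card_add_two_mul_card_eq_rank K
        have h3 := card_eq_nrRealPlaces_add_nrComplexPlaces K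
        omega

private theorem sum2 {ι : Type*} {X : ι → ι → ℝ≥0∞} {E S : Finset ι} (h : E ⊆ S) :
    ∑ a ∈ E, ∑ b ∈ E, X a b ≤ ∑ a ∈ S, ∑ b ∈ S, X a b :=
  (Finset.sum_le_sum fun _ _ => Finset.sum_le_sum_of_subset h).trans
    (Finset.sum_le_sum_of_subset h)

/-- the inequality without roots -/
private theorem key {C1 c1 c2 c3 E cK0 N P A ε DD CV n4 : ℝ} (hE : 0 < E)
    (h16 : E * cK0 = n4⁻¹) (hn4 : 1 ≤ n4) (hcK : 1 ≤ cK0) (hN : 1 ≤ N) (hP : P = N * cK0)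
    (hA : 1 ≤ A) (hε : 0 < ε) (hC1 : 1 ≤ C1) (hc1 : 1 ≤ c1) (hc2 : 1 ≤ c2)
    (hc3 : 1 ≤ c3) (hDD : 0 ≤ DD) (hCV : 1 ≤ CV) (hDV : DD ≤ CV * N ^ (ε / 5)) :
    (C1 * E⁻¹) ^ 4 * ((c1 * E) ^ 2 * (c2 * E * A ^ ε) * (c3 * DD ^ 2) * (P ^ ε * cK0⁻¹)) ≤
      (C1 * n4 * c1 * c2 * c3 * CV ^ 2) ^ 4 * ((A * P) ^ ε) ^ 4 := by
  have hN0 : 0 < N := by linarith
  have hc0 : 0 < cK0 := by linarith
  have hA0 : 0 < A := by linarith
  have hP0 : 0 < P := by rw [hP]; positivity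
  have hn0 : 0 < n4 := by linarith
  have hP1 : 1 ≤ P := by rw [hP]; nlinarith
  have hNP : N ≤ P := by rw [hP]; nlinarith
  have hEi : E⁻¹ = n4 * cK0 := by
    have : E = (n4 * cK0)⁻¹ := by
      rw [mul_inv, ← h16]
      field_simp
    rw [this, inv_inv]
  have hPe1 : 1 ≤ P ^ ε := Real.one_le_rpow hP1 hε.le
  have hAe1 : 1 ≤ A ^ ε := Real.one_le_rpow hA hε.le
  have hD2 : DD ^ 2 ≤ CV ^ 2 * P ^ ε := by
    calc DD ^ 2 ≤ (CV * N ^ (ε / 5)) ^ 2 := pow_le_pow_left₀ hDD hDV 2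
      _ = CV ^ 2 * (N ^ (ε / 5)) ^ 2 := by rw [mul_pow]
      _ = CV ^ 2 * N ^ (ε / 5 * 2) := by
        rw [← Real.rpow_natCast (N ^ (ε / 5)) 2, ← Real.rpow_mul hN0.le]
        norm_num
      _ ≤ CV ^ 2 * N ^ ε := by
        have : N ^ (ε / 5 * 2) ≤ N ^ ε := Real.rpow_le_rpow_of_exponent_le hN (by linarith)
        gcongr
      _ ≤ CV ^ 2 * P ^ ε := by
        gcongr
  have hE0 : E ≠ 0 := hE.ne'
  have eL : (C1 * E⁻¹) ^ 4 * ((c1 * E) ^ 2 * (c2 * E * A ^ ε) * (c3 * DD ^ 2) *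
      (P ^ ε * cK0⁻¹)) = C1 ^ 4 * c1 ^ 2 * c2 * c3 * n4 * (A ^ ε * P ^ ε * DD ^ 2) := by
    have : (C1 * E⁻¹) ^ 4 * ((c1 * E) ^ 2 * (c2 * E * A ^ ε) * (c3 * DD ^ 2) *
      (P ^ ε * cK0⁻¹)) = (E⁻¹ * E) ^ 3 * (C1 ^ 4 * c1 ^ 2 * c2 * c3 * (E⁻¹ * cK0⁻¹) *
        (A ^ ε * P ^ ε * DD ^ 2)) := by ring
    rw [this, inv_mul_cancel₀ hE0, hEi]
    have : n4 * cK0 * cK0⁻¹ = n4 := by field_simp
    rw [this]
    ring
  rw [eL]
  have p1 : ∀ {x : ℝ} {m : ℕ}, 1 ≤ x → 1 ≤ m → x ≤ x ^ m := fun {x m} hx hm => by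
    calc x = x ^ 1 := (pow_one _).symm
      _ ≤ x ^ m := pow_le_pow_right₀ hx hm
  have hAP : A ^ ε * P ^ ε * P ^ ε ≤ ((A * P) ^ ε) ^ 4 := by
    rw [Real.mul_rpow hA0.le hP0.le, mul_pow]
    have a1 : A ^ ε ≤ (A ^ ε) ^ 4 := p1 hAe1 (by norm_num)
    have a2 : P ^ ε * P ^ ε ≤ (P ^ ε) ^ 4 := by
      calc P ^ ε * P ^ ε = (P ^ ε) ^ 2 := by ring
        _ ≤ (P ^ ε) ^ 4 := pow_le_pow_right₀ hPe1 (by norm_num)
    calc A ^ ε * P ^ ε * P ^ ε = A ^ ε * (P ^ ε * P ^ ε) := by ring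
      _ ≤ _ := mul_le_mul a1 a2 (by positivity) (by positivity)
  calc C1 ^ 4 * c1 ^ 2 * c2 * c3 * n4 * (A ^ ε * P ^ ε * DD ^ 2)
      ≤ C1 ^ 4 * c1 ^ 2 * c2 * c3 * n4 * (A ^ ε * P ^ ε * (CV ^ 2 * P ^ ε)) := by
        gcongr
    _ = C1 ^ 4 * c1 ^ 2 * c2 * c3 * n4 * CV ^ 2 * (A ^ ε * P ^ ε * P ^ ε) := by ring
    _ ≤ C1 ^ 4 * c1 ^ 4 * c2 ^ 4 * c3 ^ 4 * n4 ^ 4 * CV ^ 8 * ((A * P) ^ ε) ^ 4 := by
        have b1 : c1 ^ 2 ≤ c1 ^ 4 := pow_le_pow_right₀ hc1 (by norm_num)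
        have b2 : c2 ≤ c2 ^ 4 := p1 hc2 (by norm_num)
        have b3 : c3 ≤ c3 ^ 4 := p1 hc3 (by norm_num)
        have b4 : n4 ≤ n4 ^ 4 := p1 hn4 (by norm_num)
        have b5 : CV ^ 2 ≤ CV ^ 8 := pow_le_pow_right₀ hCV (by norm_num)
        gcongr
    _ = _ := by ring

/-- the real inequality -/
private theorem real_part {C1 c1 c2 c3 E cK0 N P A ε DD CV n4 : ℝ} (hE : 0 < E)
    (h16 : E * cK0 = n4⁻¹) (hn4 : 1 ≤ n4) (hcK : 1 ≤ cK0) (hN : 1 ≤ N) (hP : P = N * cK0)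
    (hA : 1 ≤ A) (hε : 0 < ε) (hC1 : 1 ≤ C1) (hc1 : 1 ≤ c1) (hc2 : 1 ≤ c2)
    (hc3 : 1 ≤ c3) (hDD : 0 ≤ DD) (hCV : 1 ≤ CV) (hDV : DD ≤ CV * N ^ (ε / 5)) :
    C1 * E⁻¹ * ((c1 * E) ^ (1 / 2 : ℝ) * (c2 * E * A ^ ε) ^ (1 / 4 : ℝ) *
      (c3 * DD ^ 2) ^ (1 / 4 : ℝ) * (P ^ ε * cK0⁻¹) ^ (1 / 4 : ℝ)) ≤
      (C1 * n4 * c1 * c2 * c3 * CV ^ 2) * (A * P) ^ ε := by
  have hc0 : 0 < cK0 := by linarith
  have hA0 : 0 < A := by linarith
  have hN0 : 0 < N := by linarith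
  have hP0 : 0 < P := by rw [hP]; positivity
  have hk := key hE h16 hn4 hcK hN hP hA hε hC1 hc1 hc2 hc3 hDD hCV hDV
  have hl := Real.rpow_le_rpow (by positivity) hk (by norm_num : (0 : ℝ) ≤ 1 / 4)
  have e1 : ((C1 * E⁻¹) ^ 4 * ((c1 * E) ^ 2 * (c2 * E * A ^ ε) * (c3 * DD ^ 2) *
      (P ^ ε * cK0⁻¹))) ^ (1 / 4 : ℝ) = C1 * E⁻¹ * ((c1 * E) ^ (1 / 2 : ℝ) *
      (c2 * E * A ^ ε) ^ (1 / 4 : ℝ) * (c3 * DD ^ 2) ^ (1 / 4 : ℝ) *
      (P ^ ε * cK0⁻¹) ^ (1 / 4 : ℝ)) := by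
    have h1 : 0 ≤ C1 * E⁻¹ := by positivity
    have h2 : 0 ≤ c1 * E := by positivity
    have h3 : 0 ≤ c2 * E * A ^ ε := by positivity
    have h4 : 0 ≤ c3 * DD ^ 2 := by positivity
    have h5 : 0 ≤ P ^ ε * cK0⁻¹ := by positivity
    rw [Real.mul_rpow (by positivity) (by positivity), r4 h1,
      Real.mul_rpow (by positivity) h5, Real.mul_rpow (by positivity) h4,
      Real.mul_rpow (by positivity) h3, r2 h2]
  have e2 : ((C1 * n4 * c1 * c2 * c3 * CV ^ 2) ^ 4 * ((A * P) ^ ε) ^ 4) ^ (1 / 4 : ℝ) =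
      (C1 * n4 * c1 * c2 * c3 * CV ^ 2) * (A * P) ^ ε := by
    rw [Real.mul_rpow (by positivity) (by positivity), r4 (by positivity), r4 (by positivity)]
  rw [e1, e2] at hl
  exact hl

/-- the combination of the factors -/
private theorem comb_enn {K1 a1 a2 a3 a4 T : ℝ} {X Y Z Z' I1 I2 I3 : ℝ≥0∞} (h1 : 0 ≤ K1)
    (h2 : 0 ≤ a1) (h3 : 0 ≤ a2) (h4 : 0 ≤ a3) (h5 : 0 ≤ a4)
    (hI1 : I1 ≤ ENNReal.ofReal a1 * X) (hI2 : I2 ≤ ENNReal.ofReal a2 * Y)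
    (hI3 : I3 ≤ ENNReal.ofReal a3 * Z) (hZ : Z ≤ ENNReal.ofReal a4 * Z')
    (hT : K1 * (a1 ^ (1 / 2 : ℝ) * a2 ^ (1 / 4 : ℝ) * a3 ^ (1 / 4 : ℝ) * a4 ^ (1 / 4 : ℝ)) ≤ T) :
    ENNReal.ofReal K1 * (I1 ^ (1 / 2 : ℝ) * I2 ^ (1 / 4 : ℝ) * I3 ^ (1 / 4 : ℝ)) ≤
      ENNReal.ofReal T * X ^ (1 / 2 : ℝ) * Y ^ (1 / 4 : ℝ) * Z' ^ (1 / 4 : ℝ) := by
  have q4 : (0 : ℝ) ≤ 1 / 4 := by norm_num
  have q2 : (0 : ℝ) ≤ 1 / 2 := by norm_num
  have e1 : I1 ^ (1 / 2 : ℝ) ≤ ENNReal.ofReal (a1 ^ (1 / 2 : ℝ)) * X ^ (1 / 2 : ℝ) := by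
    rw [← ENNReal.ofReal_rpow_of_nonneg h2 q2, ← ENNReal.mul_rpow_of_nonneg _ _ q2]
    exact ENNReal.rpow_le_rpow hI1 q2
  have e2 : I2 ^ (1 / 4 : ℝ) ≤ ENNReal.ofReal (a2 ^ (1 / 4 : ℝ)) * Y ^ (1 / 4 : ℝ) := by
    rw [← ENNReal.ofReal_rpow_of_nonneg h3 q4, ← ENNReal.mul_rpow_of_nonneg _ _ q4]
    exact ENNReal.rpow_le_rpow hI2 q4
  have e3 : I3 ^ (1 / 4 : ℝ) ≤ ENNReal.ofReal (a3 ^ (1 / 4 : ℝ)) *
      (ENNReal.ofReal (a4 ^ (1 / 4 : ℝ)) * Z' ^ (1 / 4 : ℝ)) := by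
    rw [← ENNReal.ofReal_rpow_of_nonneg h4 q4, ← ENNReal.ofReal_rpow_of_nonneg h5 q4,
      ← ENNReal.mul_rpow_of_nonneg _ _ q4, ← ENNReal.mul_rpow_of_nonneg _ _ q4]
    exact ENNReal.rpow_le_rpow (hI3.trans (mul_le_mul_right hZ _)) q4
  calc ENNReal.ofReal K1 * (I1 ^ (1 / 2 : ℝ) * I2 ^ (1 / 4 : ℝ) * I3 ^ (1 / 4 : ℝ))
      ≤ ENNReal.ofReal K1 * ((ENNReal.ofReal (a1 ^ (1 / 2 : ℝ)) * X ^ (1 / 2 : ℝ)) *
        (ENNReal.ofReal (a2 ^ (1 / 4 : ℝ)) * Y ^ (1 / 4 : ℝ)) *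
        (ENNReal.ofReal (a3 ^ (1 / 4 : ℝ)) *
          (ENNReal.ofReal (a4 ^ (1 / 4 : ℝ)) * Z' ^ (1 / 4 : ℝ)))) := by
        gcongr
    _ = (ENNReal.ofReal K1 * (ENNReal.ofReal (a1 ^ (1 / 2 : ℝ)) *
        ENNReal.ofReal (a2 ^ (1 / 4 : ℝ)) * ENNReal.ofReal (a3 ^ (1 / 4 : ℝ)) *
        ENNReal.ofReal (a4 ^ (1 / 4 : ℝ)))) * X ^ (1 / 2 : ℝ) * Y ^ (1 / 4 : ℝ) *
          Z' ^ (1 / 4 : ℝ) := by ring
    _ ≤ ENNReal.ofReal T * X ^ (1 / 2 : ℝ) * Y ^ (1 / 4 : ℝ) * Z' ^ (1 / 4 : ℝ) := by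
        have : ENNReal.ofReal K1 * (ENNReal.ofReal (a1 ^ (1 / 2 : ℝ)) *
            ENNReal.ofReal (a2 ^ (1 / 4 : ℝ)) * ENNReal.ofReal (a3 ^ (1 / 4 : ℝ)) *
            ENNReal.ofReal (a4 ^ (1 / 4 : ℝ))) ≤ ENNReal.ofReal T := by
          rw [← ENNReal.ofReal_mul (by positivity), ← ENNReal.ofReal_mul (by positivity),
            ← ENNReal.ofReal_mul (by positivity), ← ENNReal.ofReal_mul h1]
          exact ENNReal.ofReal_le_ofReal hT
        gcongr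

/-- the last factor -/
private theorem last_fac {N P cK0 ε : ℝ} {g : ℝ≥0∞} (hN : 1 ≤ N) (hcK : 1 ≤ cK0)
    (hP : P = N * cK0) (hε : 0 < ε) :
    ENNReal.ofReal N * (1 + g) + ENNReal.ofReal ((N / cK0) ^ (1 / 2 : ℝ) * cK0 ^ ε) *
      (1 + g) ^ 3 ≤ ENNReal.ofReal (P ^ ε * cK0⁻¹) *
        (ENNReal.ofReal P * (1 + g) + ENNReal.ofReal (P ^ (1 / 2 : ℝ)) * (1 + g) ^ 3) := by
  have hN0 : 0 < N := by linarith
  have hc0 : 0 < cK0 := by linarith
  have hP0 : 0 < P := by rw [hP]; positivity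
  have hP1 : 1 ≤ P := by rw [hP]; nlinarith
  have hcP : cK0 ≤ P := by rw [hP]; nlinarith
  have hPe1 : 1 ≤ P ^ ε := Real.one_le_rpow hP1 hε.le
  have e1 : cK0 * (N / cK0) ^ (1 / 2 : ℝ) = P ^ (1 / 2 : ℝ) := by
    rw [Real.div_rpow hN0.le hc0.le, hP, Real.mul_rpow hN0.le hc0.le]
    have : cK0 = cK0 ^ (1 / 2 : ℝ) * cK0 ^ (1 / 2 : ℝ) := by
      rw [← Real.rpow_add hc0]; norm_num
    have h0 : cK0 ^ (1 / 2 : ℝ) ≠ 0 := by positivity
    field_simp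
    nlinarith [this]
  have hR : ENNReal.ofReal (P ^ ε * cK0⁻¹) *
      (ENNReal.ofReal P * (1 + g) + ENNReal.ofReal (P ^ (1 / 2 : ℝ)) * (1 + g) ^ 3) =
      ENNReal.ofReal (P ^ ε * cK0⁻¹ * P) * (1 + g) +
        ENNReal.ofReal (P ^ ε * cK0⁻¹ * P ^ (1 / 2 : ℝ)) * (1 + g) ^ 3 := by
    rw [ENNReal.ofReal_mul (p := P ^ ε * cK0⁻¹) (q := P) (by positivity),
      ENNReal.ofReal_mul (p := P ^ ε * cK0⁻¹) (q := P ^ (1 / 2 : ℝ)) (by positivity)]
    ring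
  rw [hR]
  have h1 : N ≤ P ^ ε * cK0⁻¹ * P := by
    have : P ^ ε * cK0⁻¹ * P = P ^ ε * N := by
      rw [hP]; field_simp
    rw [this]
    exact le_mul_of_one_le_left hN0.le hPe1
  have h2 : (N / cK0) ^ (1 / 2 : ℝ) * cK0 ^ ε ≤ P ^ ε * cK0⁻¹ * P ^ (1 / 2 : ℝ) := by
    have h3 : cK0 ^ ε ≤ P ^ ε := Real.rpow_le_rpow hc0.le hcP hε.le
    calc (N / cK0) ^ (1 / 2 : ℝ) * cK0 ^ ε ≤ (N / cK0) ^ (1 / 2 : ℝ) * P ^ ε := by gcongr
      _ = P ^ ε * cK0⁻¹ * (cK0 * (N / cK0) ^ (1 / 2 : ℝ)) := by field_simp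
      _ = _ := by rw [e1]
  exact add_le_add (mul_le_mul_left (ENNReal.ofReal_le_ofReal h1) _)
    (mul_le_mul_left (ENNReal.ofReal_le_ofReal h2) _)

open scoped Classical in
theorem pf_R_HP (hSD : N_SD) (hCA1 : N_CA) (hCA : R_CA) (hGB : R_GB) (hM4 : R_M4)
    (hUF : K_UF) (hMT : N_MT) (hDV : Pool.Agent.H29.TC.T_DV) : R_HP := by
  intro n hn ε hε hε8
  obtain ⟨C1, hC1, h1⟩ := hSD n hn
  obtain ⟨C0, hC0, h0⟩ := hCA1 n hn
  obtain ⟨C2, hC2, h2⟩ := hCA n hn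
  obtain ⟨CG, hCG, hG⟩ := hGB n hn ε hε (by linarith)
  obtain ⟨C3, hC3, h3⟩ := hM4 n hn ε hε hε8
  obtain ⟨CV0, h4⟩ := hDV n (ε / 5) (by linarith)
  have hCV : 1 ≤ max CV0 1 := le_max_right _ _
  have hC3' : 1 ≤ C3 * C1 ^ (4 * n) := one_le_mul_of_one_le_of_one_le hC3 (one_le_pow₀ hC1)
  have h16n : (1 : ℝ) ≤ 16 ^ n := one_le_pow₀ (by norm_num)
  have h29n : (1 : ℝ) ≤ 29 ^ n := one_le_pow₀ (by norm_num)
  have hc1 : (1 : ℝ) ≤ 29 ^ n * (2 * C0) :=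
    one_le_mul_of_one_le_of_one_le h29n (by linarith)
  have hc2 : (1 : ℝ) ≤ 29 ^ n * (C2 * CG) :=
    one_le_mul_of_one_le_of_one_le h29n (one_le_mul_of_one_le_of_one_le hC2 hCG)
  have hCC : 1 ≤ C1 * 16 ^ n * (29 ^ n * (2 * C0)) * (29 ^ n * (C2 * CG)) *
      (C3 * C1 ^ (4 * n)) * (max CV0 1) ^ 2 :=
    one_le_mul_of_one_le_of_one_le (one_le_mul_of_one_le_of_one_le
      (one_le_mul_of_one_le_of_one_le (one_le_mul_of_one_le_of_one_le
        (one_le_mul_of_one_le_of_one_le hC1 h16n) hc1) hc2) hC3') (one_le_pow₀ hCV)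
  refine ⟨4 ^ n * (C1 * 16 ^ n * (29 ^ n * (2 * C0)) * (29 ^ n * (C2 * CG)) *
      (C3 * C1 ^ (4 * n)) * (max CV0 1) ^ 2),
    one_le_mul_of_one_le_of_one_le (one_le_pow₀ (by norm_num)) hCC, ?_⟩
  intro K _ _ hK f hf χ hχ L y μ A P S E hL hQ hS hES hP
  have hf' : ((f : Ideal (𝓞 K)) : FI K) ≠ 0 := by
    rwa [Ne, FractionalIdeal.coeIdeal_eq_zero]
  obtain ⟨F, hF⟩ := hUF K ((f : FI K) * L) y (mul_ne_zero hf' hL)
  have hcc : ∀ v, 1 ≤ cc (χ.k v) (μ v) := by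
    intro v
    unfold cc
    have := abs_nonneg (μ v).im
    have := abs_nonneg ((χ.k v : ℤ) : ℝ)
    linarith
  obtain ⟨η, hηv⟩ : ∃ η : InfinitePlace K → ℝ,
      ∀ v, η v = (1 / 16 : ℝ) * (cc (χ.k v) (μ v))⁻¹ := ⟨_, fun _ => rfl⟩
  have hη' : ∀ v, 0 < η v := fun v => by
    have := hcc v
    rw [hηv]
    positivity
  have hη2' : ∀ v, η v * cc (χ.k v) (μ v) = 1 / 16 := fun v => by
    have := hcc v
    rw [hηv, mul_assoc, inv_mul_cancel₀ (by linarith), mul_one]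
  have hη4 : (fun v => 4 * η v) = fun v => 1 / (4 * cc (χ.k v) (μ v)) := by
    funext v
    have := hcc v
    have h0 : cc (χ.k v) (μ v) ≠ 0 := by linarith
    rw [hηv]
    field_simp
    norm_num
  obtain ⟨Am, hAm, hSDa⟩ := h1 K hK f hf χ L y η F μ hL hF hQ hη' (fun v => (hη2' v).le)
  have hsum : ∑ v : InfinitePlace K, v.mult = n := by
    rw [← hK]; exact InfinitePlace.sum_mult_eq
  have hE0 : 0 < ∏ v, η v ^ v.mult := Finset.prod_pos fun v _ => pow_pos (hη' v) _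
  have hEc : (∏ v, η v ^ v.mult) * cK χ.k μ = (16 ^ n : ℝ)⁻¹ := by
    unfold cK
    rw [← Finset.prod_mul_distrib]
    simp_rw [← mul_pow, hη2']
    rw [Finset.prod_pow_eq_pow_sum, hsum]
    rw [one_div, inv_pow]
  have hcK : 1 ≤ cK χ.k μ := by
    unfold cK
    exact Finset.prod_induction _ (fun x => (1 : ℝ) ≤ x)
      (fun a b ha hb => one_le_mul_of_one_le_of_one_le ha hb) le_rfl
      (fun v _ => one_le_pow₀ (hcc v))
  have hN : 1 ≤ Nf K f := by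
    unfold Nf
    have : Ideal.absNorm f ≠ 0 := by
      rwa [Ne, Ideal.absNorm_eq_zero_iff]
    exact_mod_cast Nat.one_le_iff_ne_zero.mpr this
  have hcard : Fintype.card (InfinitePlace K → Fin 4) ≤ 4 ^ n := by
    rw [Fintype.card_fun, Fintype.card_fin]
    refine Nat.pow_le_pow_right (by norm_num) ?_
    calc Fintype.card (InfinitePlace K) = ∑ v : InfinitePlace K, 1 := by simp
      _ ≤ ∑ v : InfinitePlace K, v.mult := Finset.sum_le_sum fun v _ => InfinitePlace.mult_pos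
      _ = n := hsum
  have hZB : mK K (ZB K) ≤ ENNReal.ofReal (29 ^ n) := hK ▸ mK_ball K
  have : SigmaFinite (mK K) := by unfold mK; infer_instance
  have hmt := hMT K f L y hL
  have hna : ∀ a, Measurable (fun q : (InfinitePlace K → ℂ) × (InfinitePlace K → ℂ) =>
      nA f L y η a q.2 q.1) := fun a =>
    swap_meas (g := fun ζ z => nA f L y η a ζ z) (hmt.2 η a)
  have hu : Measurable (fun q : (InfinitePlace K → ℂ) × (InfinitePlace K → ℂ) =>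
      ∑ a ∈ E, nA f L y η a q.2 q.1) := Finset.measurable_sum _ fun a _ => hna a
  have ht : ∀ j, Measurable (fun q : (InfinitePlace K → ℂ) × (InfinitePlace K → ℂ) =>
      ENNReal.ofReal ‖TT (cg χ L) L y (PhA χ.k μ (Am j)) q.2 q.1‖) := by
    intro j
    have := swap_meas (g := fun ζ z => TT (cg χ L) L y (PhA χ.k μ (Am j)) ζ z)
      (hmt.1 (cg χ L) χ.k μ C1 (Am j) (hAm j))
    exact this.norm.ennreal_ofReal
  have hnt : ∀ a j, Measurable (fun q : (InfinitePlace K → ℂ) × (InfinitePlace K → ℂ) =>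
      nA f L y η a q.2 q.1 *
        ENNReal.ofReal ‖TT (cg χ L) L y (PhA χ.k μ (Am j)) q.2 q.1‖) :=
    fun a j => (hna a).mul (ht j)
  have hA0 : 0 < A := lt_of_lt_of_le one_pos hS.one
  have hNf0 : ∀ a : Ideal (𝓞 K), 0 ≤ Nf K a := fun a => by unfold Nf; positivity
  -- a constant integrand over the ball
  have hball : ∀ (g : (InfinitePlace K → ℂ) → ℝ≥0∞) (B : ℝ≥0∞), (∀ z, g z ≤ B) →
      ∫⁻ z in ZB K, g z ∂mK K ≤ ENNReal.ofReal (29 ^ n) * B := by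
    intro g B hg
    calc ∫⁻ z in ZB K, g z ∂mK K ≤ ∫⁻ _ in ZB K, B ∂mK K := lintegral_mono fun z => hg z
      _ = B * mK K (ZB K) := by rw [setLIntegral_const]
      _ ≤ B * ENNReal.ofReal (29 ^ n) := mul_le_mul_right hZB _
      _ = _ := mul_comm _ _
  -- the three integrals
  have hm : ∀ a z, Measurable fun ζ => nA f L y η a ζ z := fun a z =>
    fst_meas (g := fun ζ z => nA f L y η a ζ z) (hna a) z
  have hmm : ∀ a b z, Measurable fun ζ => nA f L y η a ζ z * nA f L y η b ζ z :=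
    fun a b z => (hm a z).mul (hm b z)
  have J1 : ∀ z, ∫⁻ ζ in F, ∑ a ∈ E, nA f L y η a ζ z ∂mK K ≤
      ENNReal.ofReal (C0 * (∏ v, η v ^ v.mult) * (E.card * (2 * A))) := by
    intro z
    rw [lintegral_finsetSum _ fun a _ => hm a z]
    calc ∑ a ∈ E, ∫⁻ ζ in F, nA f L y η a ζ z ∂mK K
        ≤ ∑ a ∈ E, ENNReal.ofReal (C0 * (∏ v, η v ^ v.mult) * (2 * A)) := by
          refine Finset.sum_le_sum fun a ha => ?_
          have haS := hES ha
          refine ((h0 K hK f a a L y η F z hf (hS.ne a haS) (hS.ne a haS) hL hF hη').1).trans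
            (ENNReal.ofReal_le_ofReal ?_)
          have := (hS.size a haS).2.le
          gcongr
      _ = _ := by
          rw [Finset.sum_const, nsmul_eq_mul, ← ENNReal.ofReal_natCast,
            ← ENNReal.ofReal_mul (by positivity)]
          congr 1
          ring
  have I1 : ∫⁻ q, ∑ a ∈ E, nA f L y η a q.2 q.1
      ∂(((mK K).restrict (ZB K)).prod ((mK K).restrict F)) ≤
      ENNReal.ofReal (29 ^ n * (2 * C0) * ∏ v, η v ^ v.mult) *
        ENNReal.ofReal (E.card * A) := by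
    calc ∫⁻ q, ∑ a ∈ E, nA f L y η a q.2 q.1
          ∂(((mK K).restrict (ZB K)).prod ((mK K).restrict F))
        = ∫⁻ z in ZB K, ∫⁻ ζ in F, ∑ a ∈ E, nA f L y η a ζ z ∂mK K ∂mK K :=
          lintegral_prod _ hu.aemeasurable
      _ ≤ ENNReal.ofReal (29 ^ n) *
          ENNReal.ofReal (C0 * (∏ v, η v ^ v.mult) * (E.card * (2 * A))) :=
          hball (fun z => ∫⁻ ζ in F, ∑ a ∈ E, nA f L y η a ζ z ∂mK K) _ J1
      _ = _ := by
          rw [← ENNReal.ofReal_mul (by positivity), ← ENNReal.ofReal_mul (by positivity)]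
          congr 1
          ring
  have J2 : ∀ z, ∫⁻ ζ in F, (∑ a ∈ E, nA f L y η a ζ z) ^ 2 ∂mK K ≤
      ENNReal.ofReal (C2 * (∏ v, η v ^ v.mult)) * (ENNReal.ofReal (CG * A ^ ε) *
      (ENNReal.ofReal (E.card * A) +
        od f S (fun v => 1 / (4 * cc (χ.k v) (μ v))) L y)) := by
    intro z
    calc ∫⁻ ζ in F, (∑ a ∈ E, nA f L y η a ζ z) ^ 2 ∂mK K
        = ∫⁻ ζ in F, ∑ a ∈ E, ∑ b ∈ E, nA f L y η a ζ z * nA f L y η b ζ z ∂mK K :=
          lintegral_congr fun ζ => by rw [sq, Finset.sum_mul_sum]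
      _ = ∑ a ∈ E, ∑ b ∈ E, ∫⁻ ζ in F, nA f L y η a ζ z * nA f L y η b ζ z ∂mK K := by
          rw [lintegral_finsetSum _ fun a _ =>
            Finset.measurable_sum _ fun b _ => hmm a b z]
          exact Finset.sum_congr rfl fun a _ => lintegral_finsetSum _ fun b _ => hmm a b z
      _ ≤ ∑ a ∈ E, ∑ b ∈ E, ENNReal.ofReal (C2 * (∏ v, η v ^ v.mult)) *
          (ENNReal.ofReal (Nf K (a ⊔ b)) *
            (1 + cn ((f : FI K) * (((a ⊓ b : Ideal (𝓞 K)) : FI K)⁻¹ * L)) y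
              (fun v => 4 * η v))) :=
          Finset.sum_le_sum fun a ha => Finset.sum_le_sum fun b hb =>
            h2 K hK f a b L y η F z hf (hS.ne a (hES ha)) (hS.ne b (hES hb)) hL hF hη'
      _ = ENNReal.ofReal (C2 * (∏ v, η v ^ v.mult)) *
          (∑ a ∈ E, ∑ b ∈ E, ENNReal.ofReal (Nf K (a ⊔ b)) +
            ∑ a ∈ E, ∑ b ∈ E, ENNReal.ofReal (Nf K (a ⊔ b)) *
              cn ((f : FI K) * (((a ⊓ b : Ideal (𝓞 K)) : FI K)⁻¹ * L)) y
                (fun v => 1 / (4 * cc (χ.k v) (μ v)))) := by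
          rw [hη4, ← Finset.sum_add_distrib, Finset.mul_sum]
          refine Finset.sum_congr rfl fun a _ => ?_
          rw [← Finset.sum_add_distrib, Finset.mul_sum]
          refine Finset.sum_congr rfl fun b _ => ?_
          rw [mul_add (ENNReal.ofReal (Nf K (a ⊔ b))), mul_one]
      _ ≤ _ := by
          refine mul_le_mul_right ?_ _
          have s1 : ∑ a ∈ E, ∑ b ∈ E, ENNReal.ofReal (Nf K (a ⊔ b)) ≤
              ENNReal.ofReal (CG * A ^ ε) * ENNReal.ofReal (E.card * A) := by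
            calc ∑ a ∈ E, ∑ b ∈ E, ENNReal.ofReal (Nf K (a ⊔ b))
                ≤ ∑ a ∈ E, ENNReal.ofReal (CG * A ^ (1 + ε)) := by
                  refine Finset.sum_le_sum fun a ha => ?_
                  rw [← ENNReal.ofReal_sum_of_nonneg fun b _ => hNf0 _]
                  refine ENNReal.ofReal_le_ofReal ?_
                  refine le_trans ?_ (hG K hK f A S hS a (hES ha))
                  exact Finset.sum_le_sum_of_subset_of_nonneg hES fun b _ _ => hNf0 _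
              _ = _ := by
                  rw [Finset.sum_const, nsmul_eq_mul, ← ENNReal.ofReal_natCast,
                    ← ENNReal.ofReal_mul (by positivity), ← ENNReal.ofReal_mul (by positivity),
                    Real.rpow_add hA0, Real.rpow_one]
                  congr 1
                  ring
          have s2 : ∑ a ∈ E, ∑ b ∈ E, ENNReal.ofReal (Nf K (a ⊔ b)) *
              cn ((f : FI K) * (((a ⊓ b : Ideal (𝓞 K)) : FI K)⁻¹ * L)) y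
                (fun v => 1 / (4 * cc (χ.k v) (μ v))) ≤
              od f S (fun v => 1 / (4 * cc (χ.k v) (μ v))) L y := by
            unfold od
            exact sum2 hES
          have s3 : (1 : ℝ≥0∞) ≤ ENNReal.ofReal (CG * A ^ ε) := by
            rw [← ENNReal.ofReal_one]
            exact ENNReal.ofReal_le_ofReal
              (one_le_mul_of_one_le_of_one_le hCG (Real.one_le_rpow hS.one hε.le))
          rw [mul_add (ENNReal.ofReal (CG * A ^ ε))]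
          refine add_le_add s1 (s2.trans ?_)
          exact le_mul_of_one_le_left (by positivity) s3
  have I2 : ∫⁻ q, (∑ a ∈ E, nA f L y η a q.2 q.1) ^ 2
      ∂(((mK K).restrict (ZB K)).prod ((mK K).restrict F)) ≤
      ENNReal.ofReal (29 ^ n * (C2 * CG) * (∏ v, η v ^ v.mult) * A ^ ε) *
        (ENNReal.ofReal (E.card * A) +
          od f S (fun v => 1 / (4 * cc (χ.k v) (μ v))) L y) := by
    calc ∫⁻ q, (∑ a ∈ E, nA f L y η a q.2 q.1) ^ 2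
          ∂(((mK K).restrict (ZB K)).prod ((mK K).restrict F))
        = ∫⁻ z in ZB K, ∫⁻ ζ in F, (∑ a ∈ E, nA f L y η a ζ z) ^ 2 ∂mK K ∂mK K :=
          lintegral_prod _ (hu.pow_const 2).aemeasurable
      _ ≤ ENNReal.ofReal (29 ^ n) *
          (ENNReal.ofReal (C2 * (∏ v, η v ^ v.mult)) * (ENNReal.ofReal (CG * A ^ ε) *
          (ENNReal.ofReal (E.card * A) +
            od f S (fun v => 1 / (4 * cc (χ.k v) (μ v))) L y))) :=
          hball (fun z => ∫⁻ ζ in F, (∑ a ∈ E, nA f L y η a ζ z) ^ 2 ∂mK K) _ J2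
      _ = _ := by
          rw [← mul_assoc, ← mul_assoc, ← ENNReal.ofReal_mul (by positivity),
            ← ENNReal.ofReal_mul (by positivity)]
          congr 2
          ring
  have I3 : ∀ j, ∫⁻ q, (ENNReal.ofReal ‖TT (cg χ L) L y (PhA χ.k μ (Am j)) q.2 q.1‖) ^ 4
      ∂(((mK K).restrict (ZB K)).prod ((mK K).restrict F)) ≤
      ENNReal.ofReal (C3 * C1 ^ (4 * n) * ((dvs K f).card : ℝ) ^ 2) *
        (ENNReal.ofReal (Nf K f) * (1 + gs f L y) +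
          ENNReal.ofReal ((Nf K f / cK χ.k μ) ^ (1 / 2 : ℝ) * cK χ.k μ ^ ε) *
            (1 + gs f L y) ^ 3) := by
    intro j
    rw [lintegral_prod _ ((ht j).pow_const 4).aemeasurable]
    have := h3 K hK f hf χ hχ L y F μ C1 (Am j) hL hF hQ hC1 (hAm j)
    refine le_trans ?_ this
    refine le_trans (lintegral_mono' Measure.restrict_le_self le_rfl) ?_
    refine lintegral_mono fun z => lintegral_mono fun ζ => ?_
    rw [ENNReal.ofReal_pow (norm_nonneg _)]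
  have hr := real_part (C1 := C1) (c1 := 29 ^ n * (2 * C0)) (c2 := 29 ^ n * (C2 * CG))
    (c3 := C3 * C1 ^ (4 * n)) (n4 := 16 ^ n)
    (E := ∏ v, η v ^ v.mult) (cK0 := cK χ.k μ) (N := Nf K f) (P := P) (A := A)
    (ε := ε) (DD := (dvs K f).card) (CV := max CV0 1)
    hE0 hEc h16n hcK hN hP hS.one hε hC1 hc1 hc2 hC3' (Nat.cast_nonneg _) hCV
    ((h4 K hK f hf).trans (mul_le_mul_of_nonneg_right (le_max_left _ _) (by positivity)))
  have hN0 : 0 < Nf K f := lt_of_lt_of_le one_pos hN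
  have hc0 : 0 < cK χ.k μ := lt_of_lt_of_le one_pos hcK
  have hP0 : 0 < P := by rw [hP]; positivity
  have hJ : ∀ j, ENNReal.ofReal (C1 * (∏ v, η v ^ v.mult)⁻¹) *
      ∫⁻ q, (∑ a ∈ E, nA f L y η a q.2 q.1) *
        ENNReal.ofReal ‖TT (cg χ L) L y (PhA χ.k μ (Am j)) q.2 q.1‖
      ∂(((mK K).restrict (ZB K)).prod ((mK K).restrict F)) ≤
      ENNReal.ofReal ((C1 * 16 ^ n * (29 ^ n * (2 * C0)) * (29 ^ n * (C2 * CG)) *
        (C3 * C1 ^ (4 * n)) * (max CV0 1) ^ 2) * (A * P) ^ ε) *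
        ENNReal.ofReal (E.card * A) ^ (1 / 2 : ℝ) * (ENNReal.ofReal (E.card * A) +
          od f S (fun v => 1 / (4 * cc (χ.k v) (μ v))) L y) ^ (1 / 4 : ℝ) *
        (ENNReal.ofReal P * (1 + gs f L y) +
          ENNReal.ofReal (P ^ (1 / 2 : ℝ)) * (1 + gs f L y) ^ 3) ^ (1 / 4 : ℝ) := by
    intro j
    have hh := hoelder (((mK K).restrict (ZB K)).prod ((mK K).restrict F)) _ _ hu (ht j)
    have hc := comb_enn (by positivity) (by positivity) (by positivity) (by positivity)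
      (by positivity) I1 I2 (I3 j) (last_fac hN hcK hP hε) hr
    exact le_trans (mul_le_mul' le_rfl hh) hc
  calc ∑ a ∈ E, ENNReal.ofReal ‖SS χ ((a : FI K)⁻¹ * L) y μ‖
      ≤ ∑ a ∈ E, ENNReal.ofReal (C1 * (∏ v, η v ^ v.mult)⁻¹) *
        ∑ j : InfinitePlace K → Fin 4, ∫⁻ q, nA f L y η a q.2 q.1 *
          ENNReal.ofReal ‖TT (cg χ L) L y (PhA χ.k μ (Am j)) q.2 q.1‖
        ∂(((mK K).restrict (ZB K)).prod ((mK K).restrict F)) := by
        refine Finset.sum_le_sum fun a ha => ?_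
        refine (hSDa a (hS.ne a (hES ha)) (hS.cop a (hES ha))).trans (le_of_eq ?_)
        congr 1
        refine Finset.sum_congr rfl fun j _ => ?_
        rw [lintegral_prod _ (hnt a j).aemeasurable]
    _ = ∑ j : InfinitePlace K → Fin 4, ENNReal.ofReal (C1 * (∏ v, η v ^ v.mult)⁻¹) *
        ∫⁻ q, (∑ a ∈ E, nA f L y η a q.2 q.1) *
          ENNReal.ofReal ‖TT (cg χ L) L y (PhA χ.k μ (Am j)) q.2 q.1‖
        ∂(((mK K).restrict (ZB K)).prod ((mK K).restrict F)) := by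
        rw [← Finset.mul_sum, Finset.sum_comm, Finset.mul_sum]
        refine Finset.sum_congr rfl fun j _ => ?_
        congr 1
        simp_rw [Finset.sum_mul]
        rw [lintegral_finsetSum _ fun a _ => hnt a j]
    _ ≤ ∑ j : InfinitePlace K → Fin 4,
        ENNReal.ofReal ((C1 * 16 ^ n * (29 ^ n * (2 * C0)) * (29 ^ n * (C2 * CG)) *
        (C3 * C1 ^ (4 * n)) * (max CV0 1) ^ 2) * (A * P) ^ ε) *
        ENNReal.ofReal (E.card * A) ^ (1 / 2 : ℝ) * (ENNReal.ofReal (E.card * A) +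
          od f S (fun v => 1 / (4 * cc (χ.k v) (μ v))) L y) ^ (1 / 4 : ℝ) *
        (ENNReal.ofReal P * (1 + gs f L y) +
          ENNReal.ofReal (P ^ (1 / 2 : ℝ)) * (1 + gs f L y) ^ 3) ^ (1 / 4 : ℝ) :=
        Finset.sum_le_sum fun j _ => hJ j
    _ ≤ ENNReal.ofReal (4 ^ n) *
        (ENNReal.ofReal ((C1 * 16 ^ n * (29 ^ n * (2 * C0)) * (29 ^ n * (C2 * CG)) *
        (C3 * C1 ^ (4 * n)) * (max CV0 1) ^ 2) * (A * P) ^ ε) *
        ENNReal.ofReal (E.card * A) ^ (1 / 2 : ℝ) * (ENNReal.ofReal (E.card * A) +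
          od f S (fun v => 1 / (4 * cc (χ.k v) (μ v))) L y) ^ (1 / 4 : ℝ) *
        (ENNReal.ofReal P * (1 + gs f L y) +
          ENNReal.ofReal (P ^ (1 / 2 : ℝ)) * (1 + gs f L y) ^ 3) ^ (1 / 4 : ℝ)) := by
        rw [Finset.sum_const, nsmul_eq_mul, Finset.card_univ]
        refine mul_le_mul_left ?_ _
        rw [← ENNReal.ofReal_natCast]
        refine ENNReal.ofReal_le_ofReal ?_
        exact_mod_cast hcard
    _ = _ := by
        rw [← mul_assoc, ← mul_assoc, ← mul_assoc, ← ENNReal.ofReal_mul (by positivity)]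
        congr 4
        ring

end Pool.Agent.H22.BH
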